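import Pool.Agent.H224R2.Mah.Defs

/-!
# Task A3 of helper224's proof of the symmetric Mahler conjecture: elementary bounds for `U`
-/

namespace Pool.Agent.H224R2.Mah

open MeasureTheory Set Filter Topology
open scoped ENNReal RealInnerProductSpace

namespace A3

theorem hasSum_odd : HasSum (fun k : ℕ => 1 / (((2 * k + 1 : ℕ) : ℝ)) ^ 2) (Real.pi ^ 2 / 8) := by
  have h0 : HasSum (fun n : ℕ => 1 / (n : ℝ) ^ 2) (Real.pi ^ 2 / 6) := hasSum_zeta_two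
  have he : HasSum (fun k : ℕ => 1 / (((2 * k : ℕ) : ℝ)) ^ 2) (Real.pi ^ 2 / 24) := by
    have h1 := h0.mul_left (1 / 4)
    have h2 : (1 / 4 : ℝ) * (Real.pi ^ 2 / 6) = Real.pi ^ 2 / 24 := by ring
    rw [h2] at h1
    refine h1.congr_fun ?_
    intro k
    rcases Nat.eq_zero_or_pos k with rfl | hk
    · simp
    · have : (k : ℝ) ≠ 0 := by positivity
      push_cast
      field_simp
      norm_num
  have hs : Summable (fun k : ℕ => 1 / (((2 * k + 1 : ℕ) : ℝ)) ^ 2) :=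
    h0.summable.comp_injective (i := fun k : ℕ => 2 * k + 1) (by
      intro a b h
      simp only at h
      omega)
  have h3 := HasSum.even_add_odd (f := fun n : ℕ => 1 / (n : ℝ) ^ 2) he hs.hasSum
  have h4 := h3.unique h0
  have h5 : ∑' k : ℕ, 1 / (((2 * k + 1 : ℕ) : ℝ)) ^ 2 = Real.pi ^ 2 / 8 := by linarith
  rw [← h5]
  exact hs.hasSum

/-- the terms of the series -/
noncomputable def tm (ζ : ℂ) (k : ℕ) : ℂ :=
  (-1 : ℂ) ^ k * ζ ^ (2 * k + 1) / ((2 * k + 1 : ℕ) : ℂ) ^ 2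

theorem norm_tm {ζ : ℂ} (hζ : ‖ζ‖ < 1) (k : ℕ) :
    ‖tm ζ k‖ ≤ ‖ζ‖ * (1 / (((2 * k + 1 : ℕ) : ℝ)) ^ 2) := by
  unfold tm
  rw [norm_div, norm_mul, norm_pow, norm_pow, norm_pow, norm_neg, norm_one, one_pow, one_mul,
    Complex.norm_natCast, mul_one_div]
  gcongr
  exact pow_le_of_le_one (norm_nonneg _) hζ.le (by omega)

theorem summable_tm {ζ : ℂ} (hζ : ‖ζ‖ < 1) : Summable (tm ζ) :=
  Summable.of_norm_bounded (hasSum_odd.summable.mul_left ‖ζ‖) (norm_tm hζ)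

theorem U_eq (ζ : ℂ) : U ζ = ((8 / Real.pi ^ 2 : ℝ) : ℂ) * ∑' k, tm ζ k := rfl

end A3

open A3

/-- A3. Elementary bounds from the series (`∑ 1/(2k+1)² = π²/8`). -/
theorem A3_bounds {ζ : ℂ} (hζ : ‖ζ‖ < 1) :
    ‖U ζ‖ ≤ ‖ζ‖ ∧ ‖ζ‖ ≤ 2 * ‖U ζ‖ ∧ U (-ζ) = -U ζ ∧
      U ((starRingEnd ℂ) ζ) = (starRingEnd ℂ) (U ζ) := by
  have hpi : 0 < Real.pi := Real.pi_pos
  have hc : ‖((8 / Real.pi ^ 2 : ℝ) : ℂ)‖ = 8 / Real.pi ^ 2 := by
    rw [Complex.norm_real, Real.norm_eq_abs, abs_of_pos (by positivity)]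
  have hsum := hasSum_odd.mul_left ‖ζ‖
  have hpi2 : Real.pi ^ 2 < 10 := by
    have := Real.pi_lt_d2
    nlinarith
  refine ⟨?_, ?_, ?_, ?_⟩
  · rw [U_eq, norm_mul, hc]
    have h1 : ‖∑' k, tm ζ k‖ ≤ ‖ζ‖ * (Real.pi ^ 2 / 8) := by
      rw [← hsum.tsum_eq]
      exact tsum_of_norm_bounded hsum.summable.hasSum (norm_tm hζ)
    calc 8 / Real.pi ^ 2 * ‖∑' k, tm ζ k‖ ≤ 8 / Real.pi ^ 2 * (‖ζ‖ * (Real.pi ^ 2 / 8)) := by
          gcongr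
      _ = ‖ζ‖ := by field_simp
  · have h2 := (summable_tm hζ).tsum_eq_zero_add
    have h0 : tm ζ 0 = ζ := by
      unfold tm; simp
    have h3 : HasSum (fun k : ℕ => ‖ζ‖ * (1 / (((2 * (k + 1) + 1 : ℕ) : ℝ)) ^ 2))
        (‖ζ‖ * (Real.pi ^ 2 / 8) - ‖ζ‖) := by
      have := (hasSum_nat_add_iff' (f := fun k : ℕ => ‖ζ‖ * (1 / (((2 * k + 1 : ℕ) : ℝ)) ^ 2)) 1).2
        hsum
      simpa using this
    have h4 : ‖∑' k, tm ζ (k + 1)‖ ≤ ‖ζ‖ * (Real.pi ^ 2 / 8) - ‖ζ‖ :=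
      tsum_of_norm_bounded h3 (fun k => norm_tm hζ (k + 1))
    have h5 : ‖ζ‖ - (‖ζ‖ * (Real.pi ^ 2 / 8) - ‖ζ‖) ≤ ‖∑' k, tm ζ k‖ := by
      rw [h2, h0]
      have := norm_sub_le (ζ + ∑' k, tm ζ (k + 1)) (∑' k, tm ζ (k + 1))
      rw [add_sub_cancel_right] at this
      linarith
    rw [U_eq, norm_mul, hc]
    have h6 : 8 / Real.pi ^ 2 * (‖ζ‖ - (‖ζ‖ * (Real.pi ^ 2 / 8) - ‖ζ‖)) ≤
        8 / Real.pi ^ 2 * ‖∑' k, tm ζ k‖ := by gcongr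
    have h7 : 8 / Real.pi ^ 2 * (‖ζ‖ - (‖ζ‖ * (Real.pi ^ 2 / 8) - ‖ζ‖)) =
        ‖ζ‖ * (16 / Real.pi ^ 2 - 1) := by
      field_simp
      ring
    have h8 : (3 / 2 : ℝ) ≤ 16 / Real.pi ^ 2 := by
      rw [le_div_iff₀ (by positivity)]
      linarith
    have h9 : ‖ζ‖ * (1 / 2) ≤ ‖ζ‖ * (16 / Real.pi ^ 2 - 1) := by
      apply mul_le_mul_of_nonneg_left _ (norm_nonneg _)
      linarith
    linarith
  · rw [U_eq, U_eq, ← mul_neg, ← tsum_neg]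
    congr 2
    funext k
    unfold tm
    rw [Odd.neg_pow ⟨k, rfl⟩]
    ring
  · rw [U_eq, U_eq, map_mul, Complex.conj_ofReal, Complex.conj_tsum]
    congr 2
    funext k
    unfold tm
    rw [map_div₀, map_mul, map_pow, map_pow, map_pow, map_neg, map_one, map_natCast]

end Pool.Agent.H224R2.Mah
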