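import Pool.Agent.H224R2.Mah.Defs

/-!
# Task K3: Mahler's inequality for spaces embedding in `L_p`, `3 - n < p < 1`

Definitions, and the reduction to the symmetric Mahler theorem of helper224 (taken as a hypothesis
in this module).
-/

namespace Pool.Agent.H169R2.Mah

open MeasureTheory Set
open scoped ENNReal RealInnerProductSpace FourierTransform

/-- `N` is a norm on `ℝ^n` -/
structure IsNorm {n : ℕ} (N : EuclideanSpace ℝ (Fin n) → ℝ) : Prop where
  pos : ∀ x, x ≠ 0 → 0 < N x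
  smul : ∀ (c : ℝ) (x : EuclideanSpace ℝ (Fin n)), N (c • x) = |c| * N x
  add : ∀ x y, N (x + y) ≤ N x + N y

/-- The space `(ℝ^n, N)` embeds in `L_p`.  For `p > 0`: `N x ^ p = ∫ |⟨x, θ⟩|^p dμ(θ)` for a finite
Borel measure `μ` on the unit sphere.  For `p < 0`: `N ^ p` is a positive definite distribution,
i.e. its Fourier transform is nonnegative on nonnegative even Schwartz functions `φ`,
`⟨(N^p)^, φ⟩ = ∫ N^p φ^ ≥ 0`. -/
def EmbedsLp {n : ℕ} (p : ℝ) (N : EuclideanSpace ℝ (Fin n) → ℝ) : Prop :=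
  (0 < p ∧ ∃ μ : Measure (Metric.sphere (0 : EuclideanSpace ℝ (Fin n)) 1), IsFiniteMeasure μ ∧
    ∀ x, N x ^ p = ∫ θ : Metric.sphere (0 : EuclideanSpace ℝ (Fin n)) 1,
      |⟪x, (θ : EuclideanSpace ℝ (Fin n))⟫| ^ p ∂μ) ∨
  (p < 0 ∧ ∀ φ : SchwartzMap (EuclideanSpace ℝ (Fin n)) ℂ,
    (∀ x, (φ x).im = 0 ∧ 0 ≤ (φ x).re) → (∀ x, φ (-x) = φ x) →
      0 ≤ ∫ x, N x ^ p * (𝓕 (fun y => φ y) x).re)

/-- The volume product of `K`. -/
noncomputable def vprod {n : ℕ} (K : Set (EuclideanSpace ℝ (Fin n))) : ℝ≥0∞ :=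
  volume K * volume (Pool.Agent.H224R2.Mah.polar K)

section
variable {n : ℕ} {N : EuclideanSpace ℝ (Fin n) → ℝ}

theorem IsNorm.zero (h : IsNorm N) : N 0 = 0 := by
  have := h.smul 0 0
  simpa using this

theorem IsNorm.nonneg (h : IsNorm N) (x : EuclideanSpace ℝ (Fin n)) : 0 ≤ N x := by
  by_cases hx : x = 0
  · rw [hx, h.zero]
  · exact (h.pos x hx).le

theorem IsNorm.neg (h : IsNorm N) (x : EuclideanSpace ℝ (Fin n)) : N (-x) = N x := by
  have := h.smul (-1) x
  simpa using this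

theorem IsNorm.convexOn (h : IsNorm N) : ConvexOn ℝ univ N := by
  refine ⟨convex_univ, ?_⟩
  intro x _ y _ a b ha hb _
  refine (h.add _ _).trans ?_
  rw [h.smul, h.smul, abs_of_nonneg ha, abs_of_nonneg hb, smul_eq_mul, smul_eq_mul]

theorem IsNorm.continuous (h : IsNorm N) : Continuous N := h.convexOn.locallyLipschitz.continuous

theorem IsNorm.convex (h : IsNorm N) : Convex ℝ {x | N x ≤ 1} := by
  have := h.convexOn.convex_le 1
  simpa using this

theorem IsNorm.isCompact (h : IsNorm N) : IsCompact {x | N x ≤ 1} := by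
  rw [Metric.isCompact_iff_isClosed_bounded]
  refine ⟨isClosed_le h.continuous continuous_const, ?_⟩
  rcases (Metric.sphere (0 : EuclideanSpace ℝ (Fin n)) 1).eq_empty_or_nonempty with he | hne
  · apply Bornology.IsBounded.subset (Metric.isBounded_closedBall (x := 0) (r := 0))
    intro x _
    rw [Metric.mem_closedBall, dist_zero_right]
    by_contra hx
    have hx0 : x ≠ 0 := by
      rintro rfl
      simp at hx
    have : (‖x‖⁻¹ • x) ∈ Metric.sphere (0 : EuclideanSpace ℝ (Fin n)) 1 := by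
      rw [mem_sphere_zero_iff_norm, norm_smul, norm_inv, norm_norm,
        inv_mul_cancel₀ (norm_ne_zero_iff.2 hx0)]
    rw [he] at this
    exact this
  · obtain ⟨z, hz, hmin⟩ := (isCompact_sphere (0 : EuclideanSpace ℝ (Fin n)) 1).exists_isMinOn hne
      h.continuous.continuousOn
    have hz0 : z ≠ 0 := by
      rintro rfl
      rw [mem_sphere_zero_iff_norm, norm_zero] at hz
      exact zero_ne_one hz
    have hNz := h.pos z hz0
    apply Bornology.IsBounded.subset (Metric.isBounded_closedBall (x := 0) (r := (N z)⁻¹))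
    intro x hx
    rw [Metric.mem_closedBall, dist_zero_right]
    by_cases hx0 : x = 0
    · rw [hx0, norm_zero]; exact inv_nonneg.2 hNz.le
    have hxn : 0 < ‖x‖ := norm_pos_iff.2 hx0
    have hs : (‖x‖⁻¹ • x) ∈ Metric.sphere (0 : EuclideanSpace ℝ (Fin n)) 1 := by
      rw [mem_sphere_zero_iff_norm, norm_smul, norm_inv, norm_norm, inv_mul_cancel₀ hxn.ne']
    have h1 : N z ≤ N (‖x‖⁻¹ • x) := hmin hs
    rw [h.smul, abs_of_pos (inv_pos.2 hxn)] at h1
    have h2 : N x ≤ 1 := hx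
    rw [le_inv_comm₀ hxn hNz]
    calc N z ≤ ‖x‖⁻¹ * N x := h1
      _ ≤ ‖x‖⁻¹ * 1 := by gcongr
      _ = ‖x‖⁻¹ := mul_one _

theorem IsNorm.interior (h : IsNorm N) : (interior {x | N x ≤ 1}).Nonempty := by
  refine ⟨0, ?_⟩
  rw [mem_interior]
  refine ⟨{x | N x < 1}, fun x (hx : N x < 1) => (show N x ≤ 1 from hx.le),
    isOpen_lt h.continuous continuous_const, ?_⟩
  change N 0 < 1
  rw [h.zero]
  exact zero_lt_one

theorem IsNorm.symm (h : IsNorm N) : ∀ x ∈ {x | N x ≤ 1}, -x ∈ {x | N x ≤ 1} := by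
  intro x hx
  change N (-x) ≤ 1
  rw [h.neg]
  exact hx

end

/-- Mahler's inequality for normed spaces and for bodies, from the symmetric Mahler theorem. -/
theorem of_mahler
    (hM : ∀ (n : ℕ) (K : Set (EuclideanSpace ℝ (Fin n))), Convex ℝ K → IsCompact K →
      (interior K).Nonempty → (∀ x ∈ K, -x ∈ K) →
      ENNReal.ofReal (4 ^ n / n.factorial) ≤ volume K * volume (Pool.Agent.H224R2.Mah.polar K))
    (n : ℕ) (_ : 3 ≤ n) (p : ℝ) (_ : 3 - (n : ℝ) < p) (_ : p < 1) (_ : p ≠ 0) :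
    (∀ N : EuclideanSpace ℝ (Fin n) → ℝ, IsNorm N → EmbedsLp p N →
      ENNReal.ofReal (4 ^ n / n.factorial) ≤ vprod {x | N x ≤ 1}) ∧
    (∀ K : Set (EuclideanSpace ℝ (Fin n)), Convex ℝ K → IsCompact K → (interior K).Nonempty →
      (∀ x ∈ K, -x ∈ K) → EmbedsLp p (gauge K) →
      ENNReal.ofReal (4 ^ n / n.factorial) ≤ vprod K) :=
  ⟨fun _ hN _ => hM n _ hN.convex hN.isCompact hN.interior hN.symm,
    fun K h1 h2 h3 h4 _ => hM n K h1 h2 h3 h4⟩

end Pool.Agent.H169R2.Mah
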